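import Mathlib

set_option autoImplicit false

/-!
# First-Fit needs `Ω(ω(G) log n)` colours on chordal graphs

Blow up the binomial tree on `2 ^ t` vertices: replace the leaves of the lowest level by cliques of
size `⌈k / 2⌉` and all other vertices by cliques of size `⌊k / 2⌋`, and join the cliques of adjacent
vertices completely. The graph is chordal, its clique number is `k`, it has `2 ^ (t - 1) * k`
vertices, and First-Fit uses `⌈k / 2⌉ + t * ⌊k / 2⌋` colours when the vertices are presented level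
by level.
-/

open SimpleGraph

namespace Pool.Agent.Results.MP_4aa424_co.BlowUp

/-- Every cycle of length at least four has a chord, that is an edge joining two non-consecutive
vertices of the cycle. -/
def IsChordal {V : Type} (G : SimpleGraph V) : Prop :=
  ∀ (v : V) (p : G.Walk v v), p.IsCycle → 4 ≤ p.length →
    ∃ x ∈ p.support, ∃ y ∈ p.support, G.Adj x y ∧ s(x, y) ∉ p.edges

/-- The First-Fit colouring for the ordering `σ 0, σ 1, …, σ (n - 1)` of the vertices: the vertex
`σ s` gets the least positive integer not already used on a neighbour `σ r` with `r < s`. -/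
noncomputable def firstFit {V : Type} (G : SimpleGraph V) {n : ℕ} (σ : Fin n ≃ V) (s : Fin n) : ℕ :=
  sInf {c : ℕ | 1 ≤ c ∧ ∀ r, ∀ _ : r < s, G.Adj (σ r) (σ s) → firstFit G σ r ≠ c}
termination_by s

/-- The First-Fit chromatic number: the largest number of colours which First-Fit uses on `G`,
over all orderings of the vertices. -/
noncomputable def chiFF {V : Type} [Fintype V] (G : SimpleGraph V) : ℕ :=
  sSup {t | ∃ σ : Fin (Fintype.card V) ≃ V, t = (Finset.univ.image (firstFit G σ)).card}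

/-! ### Orderings sorted by the levels of a wall -/

lemma firstFit_eq {V : Type} (G : SimpleGraph V) {n : ℕ} (σ : Fin n ≃ V) (L : V → ℕ)
    (h1 : ∀ v, 1 ≤ L v) (hadj : ∀ u v, G.Adj u v → L u ≠ L v)
    (hwall : ∀ v i, 1 ≤ i → i < L v → ∃ u, G.Adj u v ∧ L u = i)
    (hmono : Monotone (fun i => L (σ i))) :
    ∀ s, firstFit G σ s = L (σ s) := by
  intro s
  induction s using WellFoundedLT.induction with
  | ind s ih =>
    rw [firstFit]
    have hmem : L (σ s) ∈ {c : ℕ | 1 ≤ c ∧
        ∀ r, ∀ _ : r < s, G.Adj (σ r) (σ s) → firstFit G σ r ≠ c} := by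
      refine ⟨h1 _, fun r hr ha => ?_⟩
      rw [ih r hr]
      exact hadj _ _ ha
    refine le_antisymm (Nat.sInf_le hmem) ?_
    refine le_csInf ⟨_, hmem⟩ ?_
    rintro c ⟨hc1, hc2⟩
    by_contra hlt
    push Not at hlt
    obtain ⟨u, hu, hLu⟩ := hwall (σ s) c hc1 hlt
    have hr : σ.symm u < s := by
      by_contra hle
      push Not at hle
      have := hmono hle
      simp only [Equiv.apply_symm_apply] at this
      omega
    have h2 := hc2 (σ.symm u) hr (by simpa using hu)
    rw [ih _ hr] at h2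
    simp only [Equiv.apply_symm_apply] at h2
    exact h2 hLu

lemma bddAbove_colors {V : Type} [Fintype V] (G : SimpleGraph V) :
    BddAbove {t | ∃ σ : Fin (Fintype.card V) ≃ V,
      t = (Finset.univ.image (firstFit G σ)).card} := by
  refine ⟨Fintype.card V, ?_⟩
  rintro t ⟨σ, rfl⟩
  refine Finset.card_image_le.trans ?_
  simp

lemma le_chiFF_of_wall {V : Type} [Fintype V] (G : SimpleGraph V) (L : V → ℕ) (T : ℕ)
    (h1 : ∀ v, 1 ≤ L v) (hadj : ∀ u v, G.Adj u v → L u ≠ L v)
    (hwall : ∀ v i, 1 ≤ i → i < L v → ∃ u, G.Adj u v ∧ L u = i)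
    (hT : ∀ i, 1 ≤ i → i ≤ T → ∃ v, L v = i) : T ≤ chiFF G := by
  classical
  set e : Fin (Fintype.card V) ≃ V := (Fintype.equivFin V).symm with he
  set σ : Fin (Fintype.card V) ≃ V := (Tuple.sort (fun i => L (e i))).trans e with hσ
  have hmono : Monotone (fun i => L (σ i)) := Tuple.monotone_sort (fun i => L (e i))
  have hff := firstFit_eq G σ L h1 hadj hwall hmono
  have hsub : Finset.Icc 1 T ⊆ Finset.univ.image (firstFit G σ) := by
    intro i hi
    rw [Finset.mem_Icc] at hi
    obtain ⟨v, hv⟩ := hT i hi.1 hi.2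
    rw [Finset.mem_image]
    refine ⟨σ.symm v, Finset.mem_univ _, ?_⟩
    rw [hff]
    simpa using hv
  have h2 := Finset.card_le_card hsub
  rw [Nat.card_Icc, Nat.add_sub_cancel] at h2
  exact h2.trans (le_csSup (bddAbove_colors G) ⟨σ, rfl⟩)

/-! ### Perfect elimination orderings -/

lemma isChordal_of_rank {V : Type} (G : SimpleGraph V) (R : V → ℕ) (hR : Function.Injective R)
    (hG : ∀ v x y, G.Adj v x → G.Adj v y → R v < R x → R v < R y → x ≠ y → G.Adj x y) :
    IsChordal G := by
  classical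
  intro v0 p0 hp0 hlen0
  obtain ⟨w, hw, hmin⟩ := Finset.exists_min_image p0.support.toFinset R
    ⟨v0, by simp⟩
  rw [List.mem_toFinset] at hw
  set p := p0.rotate w hw with hpdef
  have hp : p.IsCycle := hp0.rotate hw
  have hlen : p.length = p0.length := by simp [hpdef]
  have hsupp : ∀ x, x ∈ p.support ↔ x ∈ p0.support := fun x => by
    rw [hpdef]; exact Walk.mem_support_rotate_iff ..
  have hedge : ∀ e, e ∈ p.edges ↔ e ∈ p0.edges := fun e => (p0.rotate_edges w hw).perm.mem_iff
  have hl4 : 4 ≤ p.length := by omega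
  have hx : p.snd ∈ p.support := p.getVert_mem_support 1
  have hy : p.penultimate ∈ p.support := p.getVert_mem_support _
  have hne : p.snd ≠ p.penultimate := hp.snd_ne_penultimate
  have hax : G.Adj w p.snd := p.adj_snd hp.not_nil
  have hay : G.Adj w p.penultimate := (p.adj_penultimate hp.not_nil).symm
  have hlt : ∀ x, x ∈ p.support → G.Adj w x → R w < R x := by
    intro x hx ha
    have h1 := hmin x (by rw [List.mem_toFinset]; exact (hsupp x).1 hx)
    rcases h1.lt_or_eq with h | h
    · exact h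
    · exact absurd (hR h) ha.ne
  have hadj := hG w _ _ hax hay (hlt _ hx hax) (hlt _ hy hay) hne
  refine ⟨p.snd, (hsupp _).1 hx, p.penultimate, (hsupp _).1 hy, hadj, ?_⟩
  rw [← hedge, Walk.mk_mem_edges_iff_exists]
  rintro ⟨i, hi, h⟩
  have inj := hp.getVert_injOn
  have e1 : p.snd = p.getVert 1 := rfl
  have e2 : p.penultimate = p.getVert (p.length - 1) := rfl
  have key : ∀ a b, 1 ≤ a → a ≤ p.length → 1 ≤ b → b ≤ p.length →
      p.getVert a = p.getVert b → a = b := by
    intro a b ha ha' hb hb' hab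
    exact inj (by simp only [Set.mem_ofPred_eq]; omega) (by simp only [Set.mem_ofPred_eq]; omega) hab
  rw [Sym2.eq_iff, e1, e2] at h
  rcases Nat.eq_zero_or_pos i with rfl | hi0
  · rcases h with ⟨h3, -⟩ | ⟨h3, -⟩
    · rw [Walk.getVert_zero] at h3
      exact hax.ne h3
    · rw [Walk.getVert_zero] at h3
      exact hay.ne h3
  · rcases h with ⟨h3, h4⟩ | ⟨h3, h4⟩
    · have := key _ _ (by omega) (by omega) (by omega) (by omega) h3
      have := key _ _ (by omega) (by omega) (by omega) (by omega) h4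
      omega
    · have := key _ _ (by omega) (by omega) (by omega) (by omega) h3
      have := key _ _ (by omega) (by omega) (by omega) (by omega) h4
      omega

/-! ### The graph -/

/-- The size of the clique replacing the vertex `y` of the binomial tree. -/
def wd (k y : ℕ) : ℕ := if y % 2 = 1 then k - k / 2 else k / 2

lemma wd_le (k y : ℕ) : wd k y ≤ k := by
  unfold wd
  split_ifs <;> omega

/-- The vertices: pairs `(y, a)` with `1 ≤ y ≤ 2 ^ t` and `a < wd k y`. -/
def vset (k t : ℕ) : Finset (ℕ × ℕ) :=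
  (Finset.Icc 1 (2 ^ t) ×ˢ Finset.range k).filter (fun p => p.2 < wd k p.1)

lemma mem_vset {k t : ℕ} {p : ℕ × ℕ} :
    p ∈ vset k t ↔ (1 ≤ p.1 ∧ p.1 ≤ 2 ^ t) ∧ p.2 < wd k p.1 := by
  unfold vset
  rw [Finset.mem_filter, Finset.mem_product, Finset.mem_Icc, Finset.mem_range]
  have := wd_le k p.1
  constructor
  · rintro ⟨⟨h1, -⟩, h2⟩
    exact ⟨h1, h2⟩
  · rintro ⟨h1, h2⟩
    exact ⟨⟨h1, by omega⟩, h2⟩

/-- The parent of `y` in the binomial tree. -/
def par (y : ℕ) : ℕ := y + 2 ^ padicValNat 2 y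

lemma lt_par (y : ℕ) : y < par y := Nat.lt_add_of_pos_right (by positivity)

/-- The blow-up of the binomial tree. -/
def bgraph (k t : ℕ) : SimpleGraph (vset k t) where
  Adj p q := (p.1.1 = q.1.1 ∧ p.1.2 ≠ q.1.2) ∨ q.1.1 = par p.1.1 ∨ p.1.1 = par q.1.1
  symm := ⟨by
    rintro p q (⟨h1, h2⟩ | h | h)
    · exact Or.inl ⟨h1.symm, h2.symm⟩
    · exact Or.inr (Or.inr h)
    · exact Or.inr (Or.inl h)⟩
  loopless := ⟨by
    rintro p (⟨-, h2⟩ | h | h)
    · exact h2 rfl
    · exact (lt_par p.1.1).ne h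
    · exact (lt_par p.1.1).ne h⟩

lemma bgraph_adj {k t : ℕ} {p q : vset k t} : (bgraph k t).Adj p q ↔
    (p.1.1 = q.1.1 ∧ p.1.2 ≠ q.1.2) ∨ q.1.1 = par p.1.1 ∨ p.1.1 = par q.1.1 := Iff.rfl

/-- the elimination rank -/
def rk (k t : ℕ) (p : vset k t) : ℕ := p.1.1 * k + p.1.2

lemma snd_lt {k t : ℕ} (p : vset k t) : p.1.2 < k := by
  have := (mem_vset.1 p.2).2
  have := wd_le k p.1.1
  omega

lemma rk_inj (k t : ℕ) : Function.Injective (rk k t) := by
  intro p q h
  unfold rk at h
  have hp := snd_lt p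
  have hq := snd_lt q
  have hk : 0 < k := by omega
  have h1 : p.1.1 = q.1.1 := by
    have e1 : (p.1.1 * k + p.1.2) / k = p.1.1 := by
      rw [Nat.add_comm, Nat.add_mul_div_right _ _ hk, Nat.div_eq_of_lt hp, zero_add]
    have e2 : (q.1.1 * k + q.1.2) / k = q.1.1 := by
      rw [Nat.add_comm, Nat.add_mul_div_right _ _ hk, Nat.div_eq_of_lt hq, zero_add]
    rw [← e1, ← e2, h]
  have h2 : p.1.2 = q.1.2 := by
    rw [h1] at h
    omega
  exact Subtype.ext (Prod.ext h1 h2)

lemma fst_le_of_rk_lt {k t : ℕ} {p q : vset k t} (h : rk k t p < rk k t q) : p.1.1 ≤ q.1.1 := by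
  unfold rk at h
  have hp := snd_lt p
  have hq := snd_lt q
  by_contra hc
  push Not at hc
  have : (q.1.1 + 1) * k ≤ p.1.1 * k := Nat.mul_le_mul_right _ hc
  rw [add_mul, one_mul] at this
  omega

lemma higher {k t : ℕ} {p q : vset k t} (ha : (bgraph k t).Adj p q)
    (h : rk k t p < rk k t q) : q.1.1 = p.1.1 ∨ q.1.1 = par p.1.1 := by
  rcases bgraph_adj.1 ha with ⟨h1, -⟩ | h1 | h1
  · exact Or.inl h1.symm
  · exact Or.inr h1
  · have := fst_le_of_rk_lt h
    have := lt_par q.1.1
    omega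

lemma isChordal_bgraph (k t : ℕ) : IsChordal (bgraph k t) := by
  refine isChordal_of_rank _ (rk k t) (rk_inj k t) ?_
  intro v x y hx hy hvx hvy hxy
  rw [bgraph_adj]
  have hne : x.1.1 = y.1.1 → x.1.2 ≠ y.1.2 := by
    intro h1 h2
    exact hxy (Subtype.ext (Prod.ext h1 h2))
  rcases higher hx hvx with h1 | h1 <;> rcases higher hy hvy with h2 | h2
  · exact Or.inl ⟨by omega, hne (by omega)⟩
  · right; left; rw [h1, h2]
  · right; right; rw [h1, h2]
  · exact Or.inl ⟨by omega, hne (by omega)⟩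

/-! ### The 2-adic valuation -/

lemma val_eq_iff {y i : ℕ} (hy : y ≠ 0) :
    padicValNat 2 y = i ↔ 2 ^ i ∣ y ∧ ¬ 2 ^ (i + 1) ∣ y := by
  rw [padicValNat_dvd_iff_le hy, padicValNat_dvd_iff_le hy]
  omega

lemma val_odd {y : ℕ} (h : y % 2 = 1) : padicValNat 2 y = 0 := by
  rw [val_eq_iff (by omega)]
  constructor
  · simp
  · rw [zero_add, pow_one]
    omega

lemma val_even {y : ℕ} (hy : y ≠ 0) (h : y % 2 ≠ 1) : 1 ≤ padicValNat 2 y := by
  rw [← padicValNat_dvd_iff_le hy, pow_one]
  omega

lemma val_sub {y i : ℕ} (hy : y ≠ 0) (hi : i < padicValNat 2 y) :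
    2 ^ i < y ∧ padicValNat 2 (y - 2 ^ i) = i := by
  have h1 : 2 ^ (i + 1) ∣ y := (padicValNat_dvd_iff_le hy).2 hi
  have h2 : 2 ^ (i + 1) ≤ y := Nat.le_of_dvd (Nat.pos_of_ne_zero hy) h1
  have h3 : 2 ^ i < 2 ^ (i + 1) := Nat.pow_lt_pow_right (by norm_num) (by omega)
  have h4 : 2 ^ i < y := by omega
  refine ⟨h4, ?_⟩
  rw [val_eq_iff (by omega)]
  have h5 : 2 ^ i ∣ y := (pow_dvd_pow 2 (by omega)).trans h1
  refine ⟨Nat.dvd_sub h5 (dvd_refl _), fun h => ?_⟩
  have h6 : 2 ^ (i + 1) ∣ y - (y - 2 ^ i) := Nat.dvd_sub h1 h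
  rw [Nat.sub_sub_self h4.le] at h6
  have := Nat.le_of_dvd (by positivity) h6
  omega

lemma par_val_lt {y : ℕ} (hy : y ≠ 0) : padicValNat 2 y < padicValNat 2 (par y) := by
  have hp : par y ≠ 0 := by
    have := lt_par y
    omega
  have h : 2 ^ (padicValNat 2 y + 1) ∣ par y := by
    obtain ⟨m, hm⟩ : 2 ^ padicValNat 2 y ∣ y := (padicValNat_dvd_iff_le hy).2 le_rfl
    have hodd : ¬ 2 ∣ m := by
      rintro ⟨m', rfl⟩
      have : 2 ^ (padicValNat 2 y + 1) ∣ y := ⟨m', by rw [pow_succ]; linarith⟩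
      have := (padicValNat_dvd_iff_le hy).1 this
      omega
    obtain ⟨m', hm'⟩ : 2 ∣ m + 1 := by omega
    refine ⟨m', ?_⟩
    have : par y = 2 ^ padicValNat 2 y * (m + 1) := by
      unfold par
      rw [mul_add, ← hm, mul_one]
    rw [this, hm', pow_succ]
    ring
  have := (padicValNat_dvd_iff_le hp).1 h
  omega

lemma par_sub {y i : ℕ} (hy : y ≠ 0) (hi : i < padicValNat 2 y) : par (y - 2 ^ i) = y := by
  obtain ⟨h1, h2⟩ := val_sub hy hi
  unfold par
  rw [h2]
  omega

/-! ### The levels -/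

/-- The first level of the clique of `y` is `off k v + 1`, where `v` is the valuation of `y`. -/
def off (k v : ℕ) : ℕ := if v = 0 then 0 else (k - k / 2) + (v - 1) * (k / 2)

/-- the level of a vertex -/
def lev (k t : ℕ) (p : vset k t) : ℕ := off k (padicValNat 2 p.1.1) + p.1.2 + 1

lemma wd_eq (k : ℕ) {y : ℕ} (hy : y ≠ 0) :
    wd k y = if padicValNat 2 y = 0 then k - k / 2 else k / 2 := by
  unfold wd
  by_cases h : y % 2 = 1
  · simp [h, val_odd h]
  · have := val_even hy h
    simp only [h, if_false]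
    rw [if_neg (by omega)]

lemma off_succ (k v : ℕ) :
    off k (v + 1) = off k v + if v = 0 then k - k / 2 else k / 2 := by
  unfold off
  rcases Nat.eq_zero_or_pos v with rfl | hv
  · simp
  · obtain ⟨w, rfl⟩ : ∃ w, v = w + 1 := ⟨v - 1, by omega⟩
    simp only [Nat.add_sub_cancel, Nat.succ_ne_zero, if_false]
    ring

lemma off_mono (k : ℕ) {v w : ℕ} (h : v ≤ w) : off k v ≤ off k w := by
  induction w, h using Nat.le_induction with
  | base => exact le_rfl
  | succ w _ ih =>
    rw [off_succ]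
    omega

lemma off_add_wd (k : ℕ) {y : ℕ} (hy : y ≠ 0) :
    off k (padicValNat 2 y) + wd k y = off k (padicValNat 2 y + 1) := by
  rw [off_succ, wd_eq k hy]

/-- Every positive level up to `off k v` lies in the block of some smaller valuation. -/
lemma exists_block (k : ℕ) : ∀ v i, 1 ≤ i → i ≤ off k v →
    ∃ w < v, off k w < i ∧ i ≤ off k (w + 1) := by
  intro v
  induction v with
  | zero =>
    intro i h1 h2
    simp [off] at h2
    omega
  | succ v ih =>
    intro i h1 h2
    by_cases h : i ≤ off k v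
    · obtain ⟨w, hw, h3⟩ := ih i h1 h
      exact ⟨w, by omega, h3⟩
    · exact ⟨v, by omega, by omega, h2⟩

lemma ne_zero_fst {k t : ℕ} (p : vset k t) : p.1.1 ≠ 0 := by
  have := (mem_vset.1 p.2).1.1
  omega

lemma lev_bounds {k t : ℕ} (p : vset k t) :
    off k (padicValNat 2 p.1.1) < lev k t p ∧ lev k t p ≤ off k (padicValNat 2 p.1.1 + 1) := by
  have h := off_add_wd k (ne_zero_fst p)
  have h2 := (mem_vset.1 p.2).2
  unfold lev
  omega

lemma lev_adj {k t : ℕ} (p q : vset k t) (h : (bgraph k t).Adj p q) : lev k t p ≠ lev k t q := by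
  have key : ∀ p q : vset k t, q.1.1 = par p.1.1 → lev k t p < lev k t q := by
    intro p q h
    have h1 := par_val_lt (ne_zero_fst p)
    rw [← h] at h1
    have h2 := off_mono k (show padicValNat 2 p.1.1 + 1 ≤ padicValNat 2 q.1.1 by omega)
    have h3 := (lev_bounds p).2
    have h4 := (lev_bounds q).1
    omega
  rcases bgraph_adj.1 h with ⟨h1, h2⟩ | h1 | h1
  · unfold lev
    rw [h1]
    omega
  · exact (key p q h1).ne
  · exact (key q p h1).ne'

lemma lev_wall {k t : ℕ} (p : vset k t) (i : ℕ) (h1 : 1 ≤ i) (h2 : i < lev k t p) :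
    ∃ q, (bgraph k t).Adj q p ∧ lev k t q = i := by
  have hp := mem_vset.1 p.2
  have hy := ne_zero_fst p
  by_cases h : i ≤ off k (padicValNat 2 p.1.1)
  · obtain ⟨w, hw, h3, h4⟩ := exists_block k _ i h1 h
    obtain ⟨h5, h6⟩ := val_sub hy hw
    have hpos : 0 < 2 ^ w := by positivity
    have hy' : p.1.1 - 2 ^ w ≠ 0 := by omega
    have h7 := off_add_wd k hy'
    rw [h6] at h7
    have hmem : (p.1.1 - 2 ^ w, i - off k w - 1) ∈ vset k t := by
      rw [mem_vset]
      refine ⟨⟨?_, ?_⟩, ?_⟩
      · show 1 ≤ p.1.1 - 2 ^ w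
        omega
      · show p.1.1 - 2 ^ w ≤ 2 ^ t
        omega
      · show i - off k w - 1 < wd k (p.1.1 - 2 ^ w)
        omega
    refine ⟨⟨_, hmem⟩, ?_, ?_⟩
    · rw [bgraph_adj]
      right
      left
      exact (par_sub hy hw).symm
    · unfold lev
      simp only [h6]
      omega
  · have hmem : (p.1.1, i - off k (padicValNat 2 p.1.1) - 1) ∈ vset k t := by
      rw [mem_vset]
      refine ⟨hp.1, ?_⟩
      show i - off k (padicValNat 2 p.1.1) - 1 < wd k p.1.1
      unfold lev at h2
      omega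
    refine ⟨⟨_, hmem⟩, ?_, ?_⟩
    · rw [bgraph_adj]
      left
      refine ⟨rfl, ?_⟩
      show i - off k (padicValNat 2 p.1.1) - 1 ≠ p.1.2
      unfold lev at h2
      omega
    · unfold lev
      simp only
      omega

lemma lev_surj (k t i : ℕ) (h1 : 1 ≤ i) (h2 : i ≤ off k (t + 1)) : ∃ p, lev k t p = i := by
  obtain ⟨w, hw, h3, h4⟩ := exists_block k (t + 1) i h1 h2
  have hv : padicValNat 2 (2 ^ w) = w := padicValNat.prime_pow w
  have h0 : (2 : ℕ) ^ w ≠ 0 := by positivity
  have h7 := off_add_wd k h0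
  rw [hv] at h7
  have hmem : (2 ^ w, i - off k w - 1) ∈ vset k t := by
    rw [mem_vset]
    refine ⟨⟨?_, ?_⟩, ?_⟩
    · show 1 ≤ 2 ^ w
      exact Nat.one_le_two_pow
    · show 2 ^ w ≤ 2 ^ t
      exact Nat.pow_le_pow_right (by norm_num) (by omega)
    · show i - off k w - 1 < wd k (2 ^ w)
      omega
  refine ⟨⟨_, hmem⟩, ?_⟩
  unfold lev
  simp only [hv]
  omega

lemma off_eq (k t : ℕ) : off k (t + 1) = (k - k / 2) + t * (k / 2) := by
  simp [off]

lemma le_chiFF_bgraph (k t : ℕ) : (k - k / 2) + t * (k / 2) ≤ chiFF (bgraph k t) := by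
  rw [← off_eq]
  exact le_chiFF_of_wall _ (lev k t) _ (fun p => by unfold lev; omega) lev_adj
    lev_wall (lev_surj k t)

/-! ### The number of vertices -/

lemma sum_wd (k m : ℕ) : ∑ y ∈ Finset.Icc 1 (2 * m), wd k y = m * k := by
  induction m with
  | zero => simp
  | succ m ih =>
    rw [show 2 * (m + 1) = 2 * m + 1 + 1 by ring, Finset.sum_Icc_succ_top (by omega),
      Finset.sum_Icc_succ_top (by omega), ih]
    have h1 : wd k (2 * m + 1) = k - k / 2 := by
      unfold wd
      rw [if_pos (by omega)]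
    have h2 : wd k (2 * m + 1 + 1) = k / 2 := by
      unfold wd
      rw [if_neg (by omega)]
    rw [h1, h2, add_mul]
    omega

lemma card_vset (k t : ℕ) (ht : 1 ≤ t) : (vset k t).card = 2 ^ (t - 1) * k := by
  have h1 : (vset k t).card = ∑ y ∈ Finset.Icc 1 (2 ^ t), wd k y := by
    unfold vset
    rw [Finset.card_filter, Finset.sum_product]
    refine Finset.sum_congr rfl fun y _ => ?_
    rw [← Finset.card_filter]
    have : (Finset.range k).filter (fun a => a < wd k y) = Finset.range (wd k y) := by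
      ext a
      rw [Finset.mem_filter, Finset.mem_range, Finset.mem_range]
      have := wd_le k y
      omega
    rw [this, Finset.card_range]
  have h2 : 2 ^ t = 2 * 2 ^ (t - 1) := by
    rw [← pow_succ']
    congr 1
    omega
  rw [h1, h2, sum_wd]

/-! ### The clique number -/

lemma wd_add_wd_par (k : ℕ) {y : ℕ} (hy : y ≠ 0) : wd k y + wd k (par y) ≤ k := by
  have h := par_val_lt hy
  have hp : par y ≠ 0 := by
    have := lt_par y
    omega
  rw [wd_eq k hy, wd_eq k hp]
  rw [if_neg (show padicValNat 2 (par y) ≠ 0 by omega)]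
  split_ifs <;> omega

lemma card_clique_le (k t : ℕ) (S : Finset (vset k t)) (hS : (bgraph k t).IsClique S) :
    S.card ≤ k := by
  classical
  rcases S.eq_empty_or_nonempty with rfl | hne
  · simp
  obtain ⟨p, hp, hmin⟩ := Finset.exists_min_image S (rk k t) hne
  have hy := ne_zero_fst p
  set T : Finset (ℕ × ℕ) := ({p.1.1} ×ˢ Finset.range (wd k p.1.1)) ∪
    ({par p.1.1} ×ˢ Finset.range (wd k (par p.1.1))) with hT
  have hsub : S.map (Function.Embedding.subtype _) ⊆ T := by
    intro q hq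
    rw [Finset.mem_map] at hq
    obtain ⟨q, hq, rfl⟩ := hq
    have hq2 := (mem_vset.1 q.2).2
    have hcase : q.1.1 = p.1.1 ∨ q.1.1 = par p.1.1 := by
      by_cases hpq : q = p
      · exact Or.inl (by rw [hpq])
      · have ha : (bgraph k t).Adj p q := hS hp hq (Ne.symm hpq)
        refine higher ha ?_
        rcases (hmin q hq).lt_or_eq with h | h
        · exact h
        · exact absurd (rk_inj k t h).symm hpq
    rw [hT, Finset.mem_union, Finset.mem_product, Finset.mem_product, Finset.mem_singleton,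
      Finset.mem_singleton, Finset.mem_range, Finset.mem_range]
    simp only [Function.Embedding.subtype_apply]
    rcases hcase with h | h
    · left
      refine ⟨h, ?_⟩
      rw [← h]
      exact hq2
    · right
      refine ⟨h, ?_⟩
      rw [← h]
      exact hq2
  have h1 := Finset.card_le_card hsub
  rw [Finset.card_map] at h1
  have h2 : T.card ≤ wd k p.1.1 + wd k (par p.1.1) := by
    rw [hT]
    refine (Finset.card_union_le _ _).trans ?_
    rw [Finset.card_product, Finset.card_product]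
    simp
  have := wd_add_wd_par k hy
  omega

lemma exists_clique (k t : ℕ) (ht : 1 ≤ t) :
    ∃ S : Finset (vset k t), (bgraph k t).IsClique S ∧ S.card = k := by
  classical
  have h2t : 2 ≤ 2 ^ t := by
    calc 2 = 2 ^ 1 := by norm_num
      _ ≤ 2 ^ t := Nat.pow_le_pow_right (by norm_num) ht
  have w1 : wd k 1 = k - k / 2 := by simp [wd]
  have w2 : wd k 2 = k / 2 := by simp [wd]
  set T : Finset (vset k t) := Finset.univ.filter (fun p => p.1.1 ≤ 2) with hT
  refine ⟨T, ?_, ?_⟩
  · intro p hp q hq hpq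
    rw [hT, Finset.mem_coe, Finset.mem_filter] at hp hq
    have hp1 := ne_zero_fst p
    have hq1 := ne_zero_fst q
    have hpar : par 1 = 2 := by
      unfold par
      simp
    rw [bgraph_adj]
    rcases (by omega : p.1.1 = 1 ∨ p.1.1 = 2) with h1 | h1 <;>
      rcases (by omega : q.1.1 = 1 ∨ q.1.1 = 2) with h2 | h2
    · left
      refine ⟨by omega, fun h => hpq (Subtype.ext (Prod.ext (by omega) h))⟩
    · right; left; rw [h1, h2, hpar]
    · right; right; rw [h1, h2, hpar]
    · left
      refine ⟨by omega, fun h => hpq (Subtype.ext (Prod.ext (by omega) h))⟩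
  · have h1 : T.map (Function.Embedding.subtype _) = vset k 1 := by
      ext p
      rw [Finset.mem_map, mem_vset]
      constructor
      · rintro ⟨q, hq, rfl⟩
        rw [hT, Finset.mem_filter] at hq
        have := mem_vset.1 q.2
        simp only [Function.Embedding.subtype_apply]
        refine ⟨⟨this.1.1, by simpa using hq.2⟩, this.2⟩
      · rintro ⟨⟨h1, h2⟩, h3⟩
        refine ⟨⟨p, mem_vset.2 ⟨⟨h1, ?_⟩, h3⟩⟩, ?_, rfl⟩
        · simp only [pow_one] at h2
          omega
        · rw [hT, Finset.mem_filter]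
          refine ⟨Finset.mem_univ _, ?_⟩
          simpa using h2
    have h3 := congrArg Finset.card h1
    rw [Finset.card_map, card_vset k 1 le_rfl] at h3
    simpa using h3

lemma cliqueNum_bgraph (k t : ℕ) (ht : 1 ≤ t) : (bgraph k t).cliqueNum = k := by
  refine le_antisymm ?_ ?_
  · obtain ⟨S, hS⟩ := (bgraph k t).exists_isNClique_cliqueNum
    rw [← hS.card_eq]
    exact card_clique_le k t S hS.isClique
  · obtain ⟨S, hS, hc⟩ := exists_clique k t ht
    exact hc.symm.le.trans (IsClique.card_le_cliqueNum (tc := hS))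

/-! ### Clique number one -/

lemma chiFF_le_one {V : Type} [Fintype V] (G : SimpleGraph V) (h : G.cliqueNum ≤ 1) :
    chiFF G ≤ 1 := by
  classical
  have hno : ∀ u v, ¬ G.Adj u v := by
    intro u v ha
    have hc : G.IsClique (({u, v} : Finset V) : Set V) := by
      intro x hx y hy hxy
      simp only [Finset.coe_insert, Finset.coe_singleton, Set.mem_insert_iff,
        Set.mem_singleton_iff] at hx hy
      rcases hx with rfl | rfl <;> rcases hy with rfl | rfl
      · exact absurd rfl hxy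
      · exact ha
      · exact ha.symm
      · exact absurd rfl hxy
    have := IsClique.card_le_cliqueNum (tc := hc)
    rw [Finset.card_pair ha.ne] at this
    omega
  refine csSup_le' ?_
  rintro t ⟨σ, rfl⟩
  have : Finset.univ.image (firstFit G σ) ⊆ {1} := by
    intro c hc
    rw [Finset.mem_image] at hc
    obtain ⟨s, -, rfl⟩ := hc
    rw [Finset.mem_singleton, firstFit]
    refine le_antisymm (Nat.sInf_le ⟨le_rfl, fun r _ ha => absurd ha (hno _ _)⟩) ?_
    exact le_csInf ⟨1, le_rfl, fun r _ ha => absurd ha (hno _ _)⟩ (fun c hc => hc.1)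
  exact (Finset.card_le_card this).trans (by simp)

/-! ### The result -/

/-- For all `k` and `t ≥ 1` there is a chordal graph with clique number `k` and `2 ^ (t - 1) * k`
vertices whose First-Fit chromatic number is at least `⌈k / 2⌉ + t * ⌊k / 2⌋`. -/
theorem explicit (k t : ℕ) (ht : 1 ≤ t) :
    ∃ (V : Type) (_ : Fintype V) (G : SimpleGraph V), IsChordal G ∧ G.cliqueNum = k ∧
      Fintype.card V = 2 ^ (t - 1) * k ∧ (k - k / 2) + t * (k / 2) ≤ chiFF G :=
  ⟨vset k t, inferInstance, bgraph k t, isChordal_bgraph k t, cliqueNum_bgraph k t ht,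
    by rw [Fintype.card_coe, card_vset k t ht], le_chiFF_bgraph k t⟩

/-- There is a constant `c > 0` such that for every `k ≥ 2` there are chordal graphs with clique
number `k` and arbitrarily many vertices `n` whose First-Fit chromatic number is at least
`c * k * log n`. (For `k = 1` there is no such constant, since First-Fit uses only one colour on
graphs without edges.) -/
theorem result :
    (∃ c : ℝ, 0 < c ∧ ∀ k : ℕ, 2 ≤ k → ∀ N : ℕ,
      ∃ (V : Type) (_ : Fintype V) (G : SimpleGraph V), IsChordal G ∧ G.cliqueNum = k ∧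
        N ≤ Fintype.card V ∧ c * k * Real.log (Fintype.card V) ≤ chiFF G) ∧
    ¬ (∃ c : ℝ, 0 < c ∧ ∀ N : ℕ,
      ∃ (V : Type) (_ : Fintype V) (G : SimpleGraph V), IsChordal G ∧ G.cliqueNum = 1 ∧
        N ≤ Fintype.card V ∧ c * (1 : ℕ) * Real.log (Fintype.card V) ≤ chiFF G) := by
  refine ⟨⟨1 / 5, by norm_num, ?_⟩, ?_⟩
  · intro k hk N
    set t := k + N + 1 with ht
    obtain ⟨V, hV, G, h1, h2, h3, h4⟩ := explicit k t (by omega)
    refine ⟨V, hV, G, h1, h2, ?_, ?_⟩
    · rw [h3]
      have h5 : t - 1 < 2 ^ (t - 1) := Nat.lt_two_pow_self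
      have h6 : 2 ^ (t - 1) ≤ 2 ^ (t - 1) * k := Nat.le_mul_of_pos_right _ (by omega)
      omega
    · have h5 : (Fintype.card V : ℝ) ≤ 2 ^ (2 * t) := by
        rw [h3]
        have h6 : k ≤ 2 ^ t := by
          have : t < 2 ^ t := Nat.lt_two_pow_self
          omega
        have h7 : 2 ^ (t - 1) ≤ 2 ^ t := Nat.pow_le_pow_right (by norm_num) (by omega)
        have h8 : 2 ^ (t - 1) * k ≤ 2 ^ t * 2 ^ t := Nat.mul_le_mul h7 h6
        rw [two_mul, pow_add]
        exact_mod_cast h8
      have h6 : (0 : ℝ) < Fintype.card V := by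
        rw [h3]
        have : 0 < 2 ^ (t - 1) * k := by positivity
        exact_mod_cast this
      have h7 : Real.log (Fintype.card V) ≤ (2 * t : ℕ) * Real.log 2 := by
        rw [← Real.log_pow]
        exact Real.log_le_log h6 h5
      have h8 : Real.log 2 < 0.6931471808 := Real.log_two_lt_d9
      have h9 : (k : ℝ) ≤ 3 * ((k / 2 : ℕ) : ℝ) := by
        have : k ≤ 3 * (k / 2) := by omega
        exact_mod_cast this
      have h10 : ((t * (k / 2) : ℕ) : ℝ) ≤ chiFF G := by
        have : t * (k / 2) ≤ chiFF G := by omega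
        exact_mod_cast this
      push_cast at h7 h10
      have ht0 : (0 : ℝ) ≤ t := Nat.cast_nonneg _
      have hk0 : (0 : ℝ) ≤ k := Nat.cast_nonneg _
      have h11 : Real.log (Fintype.card V) ≤ 2 * t * 0.7 := by
        refine h7.trans ?_
        nlinarith
      have h12 : 1 / 5 * (k : ℝ) * Real.log (Fintype.card V) ≤ 1 / 5 * k * (2 * t * 0.7) :=
        mul_le_mul_of_nonneg_left h11 (by positivity)
      refine h12.trans (le_trans ?_ h10)
      have h13 : (t : ℝ) * k ≤ t * (3 * ((k / 2 : ℕ) : ℝ)) := mul_le_mul_of_nonneg_left h9 ht0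
      have h14 : 0 ≤ (t : ℝ) * ((k / 2 : ℕ) : ℝ) := by positivity
      nlinarith
  · rintro ⟨c, hc, h⟩
    obtain ⟨N, hN⟩ := exists_nat_gt (Real.exp (1 / c))
    obtain ⟨V, hV, G, -, h2, h3, h4⟩ := h N
    have h5 : chiFF G ≤ 1 := chiFF_le_one G h2.le
    have h6 : Real.exp (1 / c) < Fintype.card V := hN.trans_le (by exact_mod_cast h3)
    have h7 : 1 / c < Real.log (Fintype.card V) := by
      rw [Real.lt_log_iff_exp_lt ((Real.exp_pos _).trans h6)]
      exact h6
    have h8 : (chiFF G : ℝ) ≤ 1 := by exact_mod_cast h5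
    have h9 : 1 < c * Real.log (Fintype.card V) := by
      rw [div_lt_iff₀ hc] at h7
      linarith
    simp only [Nat.cast_one, mul_one] at h4
    linarith

end Pool.Agent.Results.MP_4aa424_co.BlowUp
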